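import Pool.Agent.W78.EC.Defs

/-!
Project EC (helper78), task F4: averages over `SL p` and a bounded count.
-/

set_option autoImplicit false

namespace Pool.Agent.W499.EC

open Finset
open Pool.Agent.W78.EC

section field

variable {F : Type} [Field F] [Fintype F] [DecidableEq F]

/-- a line in the plane over a finite field has `|F|` points -/
lemma card_line (u v k : F) (h : ¬ (u = 0 ∧ v = 0)) :
    ((univ : Finset (F × F)).filter (fun z => u * z.2 - z.1 * v = k)).card = Fintype.card F := by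
  by_cases hu : u = 0
  · have hv : v ≠ 0 := fun hv => h ⟨hu, hv⟩
    rw [← Finset.card_univ (α := F)]
    symm
    refine Finset.card_bij (fun d _ => (-k / v, d)) ?_ ?_ ?_
    · intro d _
      rw [mem_filter]
      refine ⟨mem_univ _, ?_⟩
      simp only [hu]
      field_simp
      ring
    · intro d _ d' _ hd
      exact (Prod.mk.inj hd).2
    · intro z hz
      rw [mem_filter] at hz
      refine ⟨z.2, mem_univ _, ?_⟩
      have h1 := hz.2
      rw [hu] at h1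
      refine Prod.ext ?_ rfl
      simp only
      rw [div_eq_iff hv]
      linear_combination h1
  · rw [← Finset.card_univ (α := F)]
    symm
    refine Finset.card_bij (fun b _ => (b, (k + b * v) / u)) ?_ ?_ ?_
    · intro b _
      rw [mem_filter]
      refine ⟨mem_univ _, ?_⟩
      simp only
      field_simp
      ring
    · intro d _ d' _ hd
      exact (Prod.mk.inj hd).1
    · intro z hz
      rw [mem_filter] at hz
      refine ⟨z.1, mem_univ _, ?_⟩
      have h1 := hz.2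
      refine Prod.ext rfl ?_
      simp only
      rw [div_eq_iff hu]
      linear_combination -h1

/-- matrices of determinant one: pairs of columns -/
def SF (F : Type) [Field F] [Fintype F] [DecidableEq F] : Finset ((F × F) × (F × F)) :=
  univ.filter (fun m => m.1.1 * m.2.2 - m.2.1 * m.1.2 = 1)

lemma sum_SF (g : F × F → ℝ) :
    ∑ m ∈ SF F, g m.1 = ∑ w ∈ (univ : Finset (F × F)).filter (fun w => w ≠ (0, 0)),
      g w * (Fintype.card F : ℝ) := by
  unfold SF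
  rw [Finset.sum_filter, Fintype.sum_prod_type, Finset.sum_filter]
  refine Finset.sum_congr rfl (fun w _ => ?_)
  by_cases hw : w = (0, 0)
  · simp [hw]
  · simp only [ne_eq, hw, not_false_eq_true, if_true]
    rw [← Finset.sum_filter, Finset.sum_const, nsmul_eq_mul, mul_comm]
    congr 2
    refine card_line w.1 w.2 1 ?_
    rintro ⟨h1, h2⟩
    exact hw (Prod.ext h1 h2)

lemma card_ne : (((univ : Finset (F × F)).filter (fun w => w ≠ (0, 0))).card : ℝ) =
    (Fintype.card F : ℝ) ^ 2 - 1 := by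
  have h1 : (univ : Finset (F × F)).filter (fun w => w ≠ (0, 0)) = univ.erase (0, 0) := by
    ext w
    simp
  rw [h1, Finset.card_erase_of_mem (mem_univ _), Finset.card_univ, Fintype.card_prod]
  have h2 : 1 ≤ Fintype.card F * Fintype.card F :=
    Nat.mul_pos Fintype.card_pos Fintype.card_pos
  rw [Nat.cast_sub h2]
  push_cast
  ring

lemma card_SF : ((SF F).card : ℝ) = (Fintype.card F : ℝ) * ((Fintype.card F : ℝ) ^ 2 - 1) := by
  have h := sum_SF (F := F) (fun _ => 1)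
  rw [Finset.sum_const, Finset.sum_const] at h
  simp only [nsmul_eq_mul, mul_one, one_mul] at h
  rw [h, card_ne]
  ring

lemma count_SF (x₁ x₂ : F) (h : ¬ (x₁ = 0 ∧ x₂ = 0)) :
    ∑ m ∈ SF F, (if x₁ * m.1.1 + x₂ * m.1.2 = 0 then (1 : ℝ) else 0) =
      (Fintype.card F : ℝ) * ((Fintype.card F : ℝ) - 1) := by
  rw [sum_SF (fun w => if x₁ * w.1 + x₂ * w.2 = 0 then (1 : ℝ) else 0), ← Finset.sum_mul,
    ← Finset.sum_filter, Finset.filter_filter, Finset.sum_const, nsmul_eq_mul, mul_one, mul_comm]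
  congr 1
  have h1 : (univ : Finset (F × F)).filter (fun w => w ≠ (0, 0) ∧ x₁ * w.1 + x₂ * w.2 = 0) =
      ((univ : Finset (F × F)).filter (fun w => x₂ * w.2 - w.1 * (-x₁) = 0)).erase (0, 0) := by
    ext w
    simp only [mem_filter, mem_univ, true_and, mem_erase, ne_eq]
    constructor
    · rintro ⟨h1, h2⟩
      exact ⟨h1, by linear_combination h2⟩
    · rintro ⟨h1, h2⟩
      exact ⟨h1, by linear_combination h2⟩
  rw [h1, Finset.card_erase_of_mem (by simp), card_line]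
  · rw [Nat.cast_sub (Nat.one_le_iff_ne_zero.2 Fintype.card_ne_zero)]
    simp
  · rintro ⟨h2, h3⟩
    exact h ⟨neg_eq_zero.1 h3, h2⟩

end field

/-- `SL p` as a set of matrices over `ZMod p`, after a shear -/
lemma sum_SL (p : ℕ) [Fact p.Prime] (r : ℤ) (g : (ZMod p × ZMod p) → ℝ)
    (f : ℕ × ℕ × ℕ × ℕ → ℝ)
    (hf : ∀ y, f y = g ((y.1 : ZMod p) + r * (y.2.1 : ZMod p),
      (y.2.2.1 : ZMod p) + r * (y.2.2.2 : ZMod p))) :
    ∑ y ∈ SL p, f y = ∑ m ∈ SF (ZMod p), g m.1 := by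
  have hp : p.Prime := Fact.out
  refine Finset.sum_nbij'
    (fun y => (((y.1 : ZMod p) + r * (y.2.1 : ZMod p), (y.2.2.1 : ZMod p) + r * (y.2.2.2 : ZMod p)),
      ((y.2.1 : ZMod p), (y.2.2.2 : ZMod p))))
    (fun m => ((m.1.1 - r * m.2.1).val, m.2.1.val, (m.1.2 - r * m.2.2).val, m.2.2.val))
    ?_ ?_ ?_ ?_ ?_
  · intro y hy
    unfold SL at hy
    rw [mem_filter] at hy
    have h1 := (ZMod.intCast_zmod_eq_zero_iff_dvd _ _).2 hy.2
    push_cast at h1
    unfold SF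
    rw [mem_filter]
    refine ⟨mem_univ _, ?_⟩
    simp only
    linear_combination h1
  · intro m hm
    unfold SF at hm
    rw [mem_filter] at hm
    have h1 := hm.2
    unfold SL
    rw [mem_filter]
    simp only [mem_product, mem_range]
    refine ⟨⟨ZMod.val_lt _, ZMod.val_lt _, ZMod.val_lt _, ZMod.val_lt _⟩, ?_⟩
    rw [← ZMod.intCast_zmod_eq_zero_iff_dvd]
    push_cast
    simp only [ZMod.natCast_val, ZMod.cast_id', id_eq]
    linear_combination h1
  · intro y hy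
    unfold SL at hy
    simp only [mem_filter, mem_product, mem_range] at hy
    obtain ⟨⟨h1, h2, h3, h4⟩, -⟩ := hy
    refine Prod.ext ?_ (Prod.ext ?_ (Prod.ext ?_ ?_))
    · simp only [add_sub_cancel_right]
      exact ZMod.val_cast_of_lt h1
    · exact ZMod.val_cast_of_lt h2
    · simp only [add_sub_cancel_right]
      exact ZMod.val_cast_of_lt h3
    · exact ZMod.val_cast_of_lt h4
  · intro m _
    refine Prod.ext (Prod.ext ?_ ?_) (Prod.ext ?_ ?_) <;>
    simp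
  · intro y _
    exact hf y

/-- AVG -/
theorem avg : S_AVG := by
  intro p r x hp hx
  have : Fact p.Prime := ⟨hp⟩
  have hx' : ¬ ((x.1 : ZMod p) = 0 ∧ (x.2 : ZMod p) = 0) := by
    rintro ⟨h1, h2⟩
    exact hx ⟨(ZMod.natCast_eq_zero_iff _ _).1 h1, (ZMod.natCast_eq_zero_iff _ _).1 h2⟩
  have h1 : ∑ y ∈ SL p, (if dv p r y x then (1 : ℝ) else 0) =
      (p : ℝ) * ((p : ℝ) - 1) := by
    rw [sum_SL p r (fun w => if (x.1 : ZMod p) * w.1 + (x.2 : ZMod p) * w.2 = 0 then (1 : ℝ) else 0),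
      count_SF _ _ hx', ZMod.card]
    intro y
    have h2 : dv p r y x ↔ (x.1 : ZMod p) * ((y.1 : ZMod p) + r * (y.2.1 : ZMod p)) +
        (x.2 : ZMod p) * ((y.2.2.1 : ZMod p) + r * (y.2.2.2 : ZMod p)) = 0 := by
      unfold dv
      rw [← ZMod.intCast_zmod_eq_zero_iff_dvd]
      push_cast
      rfl
    simp only [h2]
  have h2 : ((SL p).card : ℝ) = (p : ℝ) * ((p : ℝ) ^ 2 - 1) := by
    have h3 := sum_SL p r (fun _ => (1 : ℝ)) (fun _ => 1) (fun _ => rfl)
    rw [Finset.sum_const, Finset.sum_const] at h3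
    simp only [nsmul_eq_mul, mul_one] at h3
    rw [h3, card_SF, ZMod.card]
  rw [h1, h2]
  have hp1 : (2 : ℝ) ≤ p := by exact_mod_cast hp.two_le
  have hp0 : (p : ℝ) ≠ 0 := by positivity
  have hp2 : (p : ℝ) - 1 ≠ 0 := by linarith
  have hp3 : (p : ℝ) + 1 ≠ 0 := by positivity
  have hp4 : (p : ℝ) ^ 2 - 1 = ((p : ℝ) - 1) * (p + 1) := by ring
  rw [hp4, div_eq_div_iff (by positivity) hp3]
  ring

/-- vectors with the divisibility condition have determinants divisible by `p` -/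
lemma dvd_cd {p : ℕ} {r : ℤ} {y : ℕ × ℕ × ℕ × ℕ} (hp : p.Prime) (hy : y ∈ SL p)
    {x z : ℕ × ℕ} (hx : dv p r y x) (hz : dv p r y z) : (p : ℤ) ∣ cd x z := by
  have hpp : Prime (p : ℤ) := Nat.prime_iff_prime_int.1 hp
  unfold dv at hx hz
  unfold SL at hy
  rw [mem_filter] at hy
  have hy2 := hy.2
  unfold cd
  set A : ℤ := (y.1 : ℤ) + r * y.2.1 with hA
  set B : ℤ := (y.2.2.1 : ℤ) + r * y.2.2.2 with hB
  have h1 : (p : ℤ) ∣ ((x.1 : ℤ) * z.2 - (z.1 : ℤ) * x.2) * A := by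
    have := dvd_sub (Dvd.dvd.mul_left hx (z.2 : ℤ)) (Dvd.dvd.mul_left hz (x.2 : ℤ))
    refine this.trans (dvd_of_eq ?_)
    ring
  have h2 : (p : ℤ) ∣ ((x.1 : ℤ) * z.2 - (z.1 : ℤ) * x.2) * B := by
    have := dvd_sub (Dvd.dvd.mul_left hz (x.1 : ℤ)) (Dvd.dvd.mul_left hx (z.1 : ℤ))
    refine this.trans (dvd_of_eq ?_)
    ring
  rcases hpp.dvd_or_dvd h1 with h | hA'
  · exact h
  rcases hpp.dvd_or_dvd h2 with h | hB'
  · exact h
  exfalso
  -- `A d - b B = 1`
  have h3 : (p : ℤ) ∣ A * y.2.2.2 - y.2.1 * B :=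
    dvd_sub (Dvd.dvd.mul_right hA' _) (Dvd.dvd.mul_left hB' _)
  have h4 : A * y.2.2.2 - y.2.1 * B = (y.1 : ℤ) * y.2.2.2 - y.2.1 * y.2.2.1 := by
    rw [hA, hB]; ring
  rw [h4] at h3
  have h5 := dvd_sub h3 hy2
  have h6 : (p : ℤ) ∣ 1 := by
    refine h5.trans (dvd_of_eq ?_)
    ring
  exact hpp.not_isUnit (isUnit_of_dvd_one h6)

/-- BDD -/
theorem bdd : S_BDD := by
  intro C₀
  refine ⟨(2 * C₀ + 1) ^ 4, ?_⟩
  intro Q p r y R hp hR hy
  have hpm : p.Prime ∧ Q < p := by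
    unfold PQ at hp
    rw [mem_filter, mem_Ioc] at hp
    exact ⟨hp.2.1, hp.1.1⟩
  obtain ⟨hpp, hQp⟩ := hpm
  set T := (((range (R + 1) ×ˢ range (R + 1)) ×ˢ (range (R + 1) ×ˢ range (R + 1))).filter
    (fun q => cd q.1 q.2 = p ∧ dv p r y q.1 ∧ dv p r y q.2)) with hT
  rcases T.eq_empty_or_nonempty with hE | ⟨q, hq⟩
  · rw [hE]; simp
  have hp0 : (0 : ℤ) < p := by exact_mod_cast hpp.pos
  -- bounds for determinants
  have hb : ∀ x z : ℕ × ℕ, x ∈ range (R + 1) ×ˢ range (R + 1) →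
      z ∈ range (R + 1) ×ˢ range (R + 1) → dv p r y x → dv p r y z →
      cd x z / (p : ℤ) ∈ Icc (-(C₀ : ℤ)) C₀ ∧ cd x z = (p : ℤ) * (cd x z / (p : ℤ)) := by
    intro x z hx hz hx' hz'
    have h1 := dvd_cd hpp hy hx' hz'
    have h2 : cd x z = (p : ℤ) * (cd x z / (p : ℤ)) := (Int.mul_ediv_cancel' h1).symm
    refine ⟨?_, h2⟩
    set s := cd x z / (p : ℤ) with hs
    rw [mem_product, mem_range, mem_range] at hx hz
    have hx1 : (x.1 : ℤ) ≤ R := by exact_mod_cast Nat.lt_succ_iff.1 hx.1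
    have hx2 : (x.2 : ℤ) ≤ R := by exact_mod_cast Nat.lt_succ_iff.1 hx.2
    have hz1 : (z.1 : ℤ) ≤ R := by exact_mod_cast Nat.lt_succ_iff.1 hz.1
    have hz2 : (z.2 : ℤ) ≤ R := by exact_mod_cast Nat.lt_succ_iff.1 hz.2
    have hR0 : (0 : ℤ) ≤ R := by positivity
    have a1 : (x.1 : ℤ) * z.2 ≤ R * R := mul_le_mul hx1 hz2 (by positivity) hR0
    have a2 : (z.1 : ℤ) * x.2 ≤ R * R := mul_le_mul hz1 hx2 (by positivity) hR0
    have a3 : (0 : ℤ) ≤ (x.1 : ℤ) * z.2 := by positivity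
    have a4 : (0 : ℤ) ≤ (z.1 : ℤ) * x.2 := by positivity
    have a5 : cd x z ≤ R * R := by unfold cd; linarith
    have a6 : -((R : ℤ) * R) ≤ cd x z := by unfold cd; linarith
    have a7 : (R : ℤ) * R ≤ C₀ * Q := by
      have : R * R ≤ C₀ * Q := by rw [← sq]; exact hR
      exact_mod_cast this
    have a8 : (C₀ : ℤ) * Q ≤ C₀ * p := by
      have : Q ≤ p := hQp.le
      exact_mod_cast Nat.mul_le_mul_left C₀ this
    rw [mem_Icc]
    constructor
    · by_contra h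
      push Not at h
      have : (p : ℤ) * s < (p : ℤ) * (-(C₀ : ℤ)) := mul_lt_mul_of_pos_left h hp0
      nlinarith
    · by_contra h
      push Not at h
      have : (p : ℤ) * (C₀ : ℤ) < (p : ℤ) * s := mul_lt_mul_of_pos_left h hp0
      nlinarith
  rw [hT, mem_filter, mem_product] at hq
  obtain ⟨⟨hq1, hq2⟩, hq3, hq4, hq5⟩ := hq
  set J : Finset ℤ := Icc (-(C₀ : ℤ)) C₀ with hJ
  have hJc : J.card = 2 * C₀ + 1 := by
    rw [hJ, Int.card_Icc]
    omega
  have hinj : T.card ≤ ((J ×ˢ J) ×ˢ (J ×ˢ J)).card := by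
    refine Finset.card_le_card_of_injOn
      (fun w => ((cd w.1 q.2 / (p : ℤ), cd q.1 w.1 / (p : ℤ)),
        (cd w.2 q.2 / (p : ℤ), cd q.1 w.2 / (p : ℤ)))) ?_ ?_
    · intro w hw
      rw [Finset.mem_coe, hT, mem_filter, mem_product] at hw
      obtain ⟨⟨hw1, hw2⟩, -, hw4, hw5⟩ := hw
      rw [Finset.mem_coe, mem_product, mem_product, mem_product]
      exact ⟨⟨(hb _ _ hw1 hq2 hw4 hq5).1, (hb _ _ hq1 hw1 hq4 hw4).1⟩,
        ⟨(hb _ _ hw2 hq2 hw5 hq5).1, (hb _ _ hq1 hw2 hq4 hw5).1⟩⟩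
    · -- injectivity
      have key : ∀ x z : ℕ × ℕ, cd x q.2 = cd z q.2 → cd q.1 x = cd q.1 z → x = z := by
        intro x z h1 h2
        have e1 : (p : ℤ) * x.1 = (p : ℤ) * z.1 := by
          rw [← hq3]
          have g1 : ∀ x : ℕ × ℕ, cd q.1 q.2 * x.1 = cd x q.2 * q.1.1 + cd q.1 x * q.2.1 := by
            intro x; unfold cd; ring
          rw [g1, g1, h1, h2]
        have e2 : (p : ℤ) * x.2 = (p : ℤ) * z.2 := by
          rw [← hq3]
          have g1 : ∀ x : ℕ × ℕ, cd q.1 q.2 * x.2 = cd x q.2 * q.1.2 + cd q.1 x * q.2.2 := by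
            intro x; unfold cd; ring
          rw [g1, g1, h1, h2]
        have e3 := mul_left_cancel₀ hp0.ne' e1
        have e4 := mul_left_cancel₀ hp0.ne' e2
        exact Prod.ext (by exact_mod_cast e3) (by exact_mod_cast e4)
      intro w hw w' hw' hww
      rw [Finset.mem_coe, hT, mem_filter, mem_product] at hw hw'
      obtain ⟨⟨hw1, hw2⟩, -, hw4, hw5⟩ := hw
      obtain ⟨⟨hw1', hw2'⟩, -, hw4', hw5'⟩ := hw'
      simp only [Prod.mk.injEq] at hww
      obtain ⟨⟨m1, m2⟩, m3, m4⟩ := hww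
      refine Prod.ext (key _ _ ?_ ?_) (key _ _ ?_ ?_)
      · rw [(hb _ _ hw1 hq2 hw4 hq5).2, (hb _ _ hw1' hq2 hw4' hq5).2, m1]
      · rw [(hb _ _ hq1 hw1 hq4 hw4).2, (hb _ _ hq1 hw1' hq4 hw4').2, m2]
      · rw [(hb _ _ hw2 hq2 hw5 hq5).2, (hb _ _ hw2' hq2 hw5' hq5).2, m3]
      · rw [(hb _ _ hq1 hw2 hq4 hw5).2, (hb _ _ hq1 hw2' hq4 hw5').2, m4]
  refine hinj.trans (le_of_eq ?_)
  rw [Finset.card_product, Finset.card_product, hJc]
  ring

end Pool.Agent.W499.EC
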